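import Pool.Agent.helper80.HM.SpecD

set_option autoImplicit false

namespace Pool.Agent.HM

open Finset Pool.Agent.helper38.Neg Pool.Agent.helper55.NT

theorem CPO_all {n m s : ℕ} (D : Circuit m s) (F : Set (Fn n)) (u : Fin m → Fn n)
    (hu : ∀ j, u j ∈ F) : Rel F s s {g | ∃ i, g = fun x => D.val (fun j => u j x) i} := by
  induction D with
  | nil =>
    refine Rel.sub ?_
    rintro g ⟨i, rfl⟩
    exact hu i
  | @snoc s C g ih =>
    have hmem : ∀ i, (fun x => C.val (fun j => u j x) i) ∈
        F ∪ {g | ∃ i, g = fun x => C.val (fun j => u j x) i} := fun i => Or.inr ⟨i, rfl⟩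
    have hg : Rel (F ∪ {g | ∃ i, g = fun x => C.val (fun j => u j x) i}) 1 1
        {fun x => g.eval (C.val (fun j => u j x))} := by
      cases g with
      | const b => exact (Rel.const _ b).mono le_rfl (by rfl) le_rfl (Nat.zero_le _)
      | and i j => exact (Rel.and (hmem i) (hmem j)).mono le_rfl (by rfl) le_rfl (Nat.zero_le _)
      | or i j => exact (Rel.or (hmem i) (hmem j)).mono le_rfl (by rfl) le_rfl (Nat.zero_le _)
      | not i => exact (Rel.not (hmem i)).mono le_rfl (by rfl) le_rfl le_rfl
    refine (ih.trans hg).mono le_rfl ?_ le_rfl le_rfl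
    rintro f ⟨i, rfl⟩
    refine Fin.lastCases ?_ (fun i => ?_) i
    · right
      show (fun x => (Circuit.snoc C g).val (fun j => u j x) (Fin.last (m + s))) =
        fun x => g.eval (C.val (fun j => u j x))
      funext x
      simp [Circuit.val]
    · left
      refine ⟨i, ?_⟩
      funext x
      show (Circuit.snoc C g).val (fun j => u j x) (Fin.castSucc i) = _
      simp [Circuit.val]

theorem CPO : CPO_stmt := by
  intro n m s D o F u hu
  refine (CPO_all D F u hu).mono le_rfl ?_ le_rfl le_rfl
  rintro g rfl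
  exact ⟨o, rfl⟩

end Pool.Agent.HM
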